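import Mathlib

/-!
# Infinite boomerang subgroups whose orbit closure carries no IRS

For every countable free group of rank at least two (finite or countably infinite rank) we construct
an infinite boomerang subgroup such that the closure of its conjugation orbit carries no invariant
random subgroup at all (not even the Dirac mass at the trivial subgroup).

Idea.  Let `L` be the free group on three letters `x_0, x_1, x_2`, seen as a `6`-regular tree.  Two of
the free generators of `Γ` act on `L`: the first one by the automorphism `x_i ↦ x_{i+1}`, the second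
one by a translation; the first one also switches a lamp (with values in `ℤ`) at the root.  A
colouring `c : L → Bool` is viewed as a field of pointers: a vertex points to its three out-neighbours
or to its three in-neighbours.  The colourings for which each vertex receives at least four pointers
form a closed invariant set `XS` without invariant measure (each vertex sends out mass three).  The
tree structure makes it trivial to glue two elements of `XS` along two disjoint balls, and so by
Baire category there is a colouring in `XS` which is recurrent for each element of `Γ`.  The subgroup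
`De c` of all elements which act trivially on `L` and do not change the lamps at the vertices of
colour `true` is the boomerang subgroup.
-/

set_option autoImplicit false

open Filter Topology MeasureTheory
open FreeGroup hiding map_mul map_inv map_one

namespace Pool.Agent.Results.MP_d9b86d_al.NoIRS

/-! ### Definitions used in the statement -/

section Defs

variable {G : Type*} [Group G]

open Classical in
/-- The indicator function of a subgroup `H` of `G`, as an element of `{0,1}^G`. -/
noncomputable def indicator (H : Subgroup G) : G → Bool := fun g => decide (g ∈ H)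

/-- The topology on the set `Sub(G)` of subgroups of `G` induced from the product topology on
`{0,1}^G` (where `{0,1}` is discrete). -/
@[instance_reducible]
noncomputable def subTopology (G : Type*) [Group G] : TopologicalSpace (Subgroup G) :=
  TopologicalSpace.induced indicator Pi.topologicalSpace

/-- The Borel sigma-algebra of `Sub(G)`. -/
@[instance_reducible]
noncomputable def subBorel (G : Type*) [Group G] : MeasurableSpace (Subgroup G) :=
  @borel (Subgroup G) (subTopology G)

/-- The conjugate `γ H γ⁻¹` of a subgroup. -/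
def conj (γ : G) (H : Subgroup G) : Subgroup G := H.map (MulAut.conj γ).toMonoidHom

/-- `H` is a boomerang subgroup: for each `γ` there is a sequence `n_k → ∞` such that
`γ^{n_k} H γ^{-n_k} → H` in `Sub(G)`. -/
def IsBoomerang (H : Subgroup G) : Prop :=
  ∀ γ : G, ∃ n : ℕ → ℕ, Tendsto n atTop atTop ∧
    Tendsto (fun k => conj (γ ^ n k) H) atTop (@nhds (Subgroup G) (subTopology G) H)

/-- The closure in `Sub(G)` of the conjugation orbit of `H`. -/
def orbitClosure (H : Subgroup G) : Set (Subgroup G) :=
  @closure (Subgroup G) (subTopology G) {K | ∃ γ : G, K = conj γ H}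

/-- An invariant random subgroup of `G`: a Borel probability measure on `Sub(G)` which is invariant
under conjugation. -/
structure IsIRS (μ : @Measure (Subgroup G) (subBorel G)) : Prop where
  prob : μ Set.univ = 1
  invariant : ∀ (γ : G) (B : Set (Subgroup G)), @MeasurableSet _ (subBorel G) B →
    μ {K | conj γ K ∈ B} = μ B

/-- A set of subgroups supports an IRS if some IRS gives it measure one. -/
def SupportsIRS (A : Set (Subgroup G)) : Prop :=
  ∃ μ : @Measure (Subgroup G) (subBorel G), IsIRS μ ∧ μ A = 1

end Defs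

abbrev L := FreeGroup (ZMod 3)
abbrev Letter := ZMod 3 × Bool

lemma toWord_mk_mul (s : Letter) (v : L) (h : v.toWord.head? ≠ some (s.1, !s.2)) :
    (mk [s] * v).toWord = s :: v.toWord := by
  rw [toWord_mul, toWord_mk, reduce_singleton, List.singleton_append, reduce.cons, reduce_toWord]
  cases hv : v.toWord with
  | nil => simp
  | cons t l =>
    rw [hv] at h
    simp only [List.head?_cons, ne_eq, Option.some.injEq] at h
    have : ¬ (s.1 = t.1 ∧ s.2 = !t.2) := by
      rintro ⟨h1, h2⟩
      apply h
      ext
      · simp [h1]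
      · simp [h2]
    simp [this]

/-- the letter leading from `v` to its parent (junk at the root). -/
def bad (v : L) : Letter :=
  match v.toWord.head? with
  | some t => (t.1, !t.2)
  | none => (0, true)

/-- the parent pointer. -/
def pt (v : L) : Bool :=
  match v.toWord.head? with
  | some t => !t.2
  | none => true

lemma toWord_of_ne_bad (s : Letter) (v : L) (h : s ≠ bad v) :
    (mk [s] * v).toWord = s :: v.toWord := by
  apply toWord_mk_mul
  intro h'
  apply h
  unfold bad
  rw [h']
  simp

lemma norm_of_ne_bad (s : Letter) (v : L) (h : s ≠ bad v) :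
    (mk [s] * v).norm = v.norm + 1 := by
  unfold FreeGroup.norm
  rw [toWord_of_ne_bad s v h]
  simp

lemma pt_of_ne_bad (s : Letter) (v : L) (h : s ≠ bad v) :
    pt (mk [s] * v) = !s.2 := by
  unfold pt
  rw [toWord_of_ne_bad s v h]
  simp

/-- number of neighbours of `v` pointing to `v`. -/
def cnt (c : L → Bool) (v : L) : ℕ :=
  (Finset.univ.filter fun s : Letter => c (mk [s] * v) = !s.2).card

/-- the subshift -/
def XS : Set (L → Bool) := {c | ∀ v, 4 ≤ cnt c v}

lemma four_le_card (P : Letter → Prop) [DecidablePred P] (a b : Letter)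
    (h : ∀ s, s ≠ a → s ≠ b → P s) : 4 ≤ (Finset.univ.filter P).card := by
  have h1 : ((Finset.univ : Finset Letter).erase a).erase b ⊆ Finset.univ.filter P := by
    intro s hs
    simp only [Finset.mem_erase, Finset.mem_univ, and_true] at hs
    simp only [Finset.mem_filter, Finset.mem_univ, true_and]
    exact h s hs.2 hs.1
  have h2 : (Finset.univ : Finset Letter).card = 6 := by decide
  have h3 := Finset.card_le_card h1
  have h4 := Finset.pred_card_le_card_erase (s := (Finset.univ : Finset Letter).erase a) (a := b)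
  have h5 := Finset.pred_card_le_card_erase (s := (Finset.univ : Finset Letter)) (a := a)
  omega

lemma pt_mem : pt ∈ XS := by
  intro v
  exact four_le_card _ (bad v) (bad v) fun s h _ => pt_of_ne_bad s v h

/-- glueing -/
def glue (x : L → Bool) (R : ℕ) (w : L) : L → Bool := fun u =>
  if u.norm ≤ R + 1 then x u else if (u * w⁻¹).norm ≤ R + 1 then x (u * w⁻¹) else pt u

lemma norm_letter_mul_le (s : Letter) (v : L) : (mk [s] * v).norm ≤ v.norm + 1 := by
  have h := norm_mul_le (mk [s] : L) v
  have h2 : (mk [s] : L).norm ≤ 1 := norm_mk_le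
  omega

lemma glue_mem (x : L → Bool) (hx : x ∈ XS) (R : ℕ) (w : L) (hw : 2 * R + 2 < w.norm) :
    glue x R w ∈ XS := by
  intro v
  by_cases h1 : v.norm ≤ R
  · have : cnt (glue x R w) v = cnt x v := by
      unfold cnt
      congr 1
      apply Finset.filter_congr
      intro s _
      have h2 := norm_letter_mul_le s v
      have h3 : (mk [s] * v).norm ≤ R + 1 := by omega
      unfold glue
      rw [if_pos h3]
    rw [this]
    exact hx v
  by_cases h2 : (v * w⁻¹).norm ≤ R
  · have : cnt (glue x R w) v = cnt x (v * w⁻¹) := by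
      unfold cnt
      congr 1
      apply Finset.filter_congr
      intro s _
      have h3 := norm_letter_mul_le s (v * w⁻¹)
      have h4 : (mk [s] * (v * w⁻¹)).norm ≤ R + 1 := by omega
      have h5 : ¬ (mk [s] * v).norm ≤ R + 1 := by
        intro h6
        have h7 := norm_mul_le (mk [s] * (v * w⁻¹))⁻¹ (mk [s] * v)
        rw [norm_inv_eq] at h7
        have h8 : (mk [s] * (v * w⁻¹))⁻¹ * (mk [s] * v) = w := by group
        rw [h8] at h7
        omega
      unfold glue
      rw [if_neg h5, mul_assoc, if_pos h4]
    rw [this]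
    exact hx _
  · apply four_le_card _ (bad v) (bad (v * w⁻¹))
    intro s hs1 hs2
    have h3 := norm_of_ne_bad s v hs1
    have h4 := norm_of_ne_bad s (v * w⁻¹) hs2
    have h5 : ¬ (mk [s] * v).norm ≤ R + 1 := by omega
    have h6 : ¬ (mk [s] * v * w⁻¹).norm ≤ R + 1 := by rw [mul_assoc]; omega
    unfold glue
    rw [if_neg h5, if_neg h6]
    exact pt_of_ne_bad s v hs1

lemma glue_eq (x : L → Bool) (R : ℕ) (w : L) (hw : 2 * R + 2 < w.norm) (u : L)
    (hu : u.norm ≤ R + 1) : glue x R w u = x u ∧ glue x R w (u * w) = x u := by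
  refine ⟨by unfold glue; rw [if_pos hu], ?_⟩
  have h5 : ¬ (u * w).norm ≤ R + 1 := by
    intro h6
    have h7 := norm_mul_le u⁻¹ (u * w)
    rw [norm_inv_eq, inv_mul_cancel_left] at h7
    omega
  unfold glue
  rw [if_neg h5, mul_inv_cancel_right, if_pos hu]

lemma finite_ball (K : ℕ) : {v : L | v.norm ≤ K}.Finite := by
  have : Finite Letter := inferInstance
  have h := List.finite_length_le Letter K
  exact Set.Finite.preimage (f := FreeGroup.toWord) (toWord_injective.injOn) h

lemma exists_norm_gt (w : L) (hw : w ≠ 1) (N K : ℕ) : ∃ n ≥ N, K < (w ^ n).norm := by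
  by_contra hcon
  push Not at hcon
  have hinj : Function.Injective (fun n : ℕ => w ^ n) := by
    intro m n hmn
    exact IsMulTorsionFree.pow_right_injective hw hmn
  have h1 : Set.Infinite ((fun n : ℕ => w ^ n) '' Set.Ici N) :=
    (Set.Ici_infinite N).image hinj.injOn
  apply h1
  apply (finite_ball K).subset
  rintro _ ⟨n, hn, rfl⟩
  exact hcon n hn

lemma isClosed_XS : IsClosed XS := by
  have : XS = ⋂ v, {c : L → Bool | 4 ≤ cnt c v} := by
    ext c; simp [XS]
  rw [this]
  apply isClosed_iInter
  intro v
  have hc : Continuous fun c : L → Bool => cnt c v := by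
    unfold cnt
    simp_rw [Finset.card_filter]
    apply continuous_finsetSum
    intro s _
    exact (continuous_of_discreteTopology (f := fun b : Bool => if b = !s.2 then 1 else 0)).comp
      (continuous_apply _)
  exact isClosed_le continuous_const hc

/-- recurrence set -/
def US (p : L × ℕ) : Set XS :=
  {c | ∃ n ≥ p.2, ∀ v : L, v.norm ≤ p.2 → c.1 (v * p.1 ^ n) = c.1 v}

lemma isOpen_US (p : L × ℕ) : IsOpen (US p) := by
  have : US p = ⋃ n : {n : ℕ // n ≥ p.2}, ⋂ v ∈ {v : L | v.norm ≤ p.2},
      {c : XS | c.1 (v * p.1 ^ n.1) = c.1 v} := by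
    ext c
    simp [US]
  rw [this]
  apply isOpen_iUnion
  intro n
  apply (finite_ball p.2).isOpen_biInter
  intro v _
  have h1 : Continuous fun c : XS => c.1 (v * p.1 ^ n.1) :=
    (continuous_apply _).comp continuous_subtype_val
  have h2 : Continuous fun c : XS => c.1 v :=
    (continuous_apply _).comp continuous_subtype_val
  exact (isOpen_discrete {q : Bool × Bool | q.1 = q.2}).preimage (h1.prodMk h2)

lemma dense_US (p : L × ℕ) : Dense (US p) := by
  rw [dense_iff_inter_open]
  rintro U hU ⟨c, hc⟩
  by_cases hp : p.1 = 1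
  · exact ⟨c, hc, p.2, le_rfl, by simp [hp]⟩
  obtain ⟨V, hV, rfl⟩ := isOpen_induced_iff.mp hU
  obtain ⟨I, u, hI, hIV⟩ := isOpen_pi_iff.mp hV c.1 hc
  set R := max p.2 (I.sup fun v => v.norm) with hR
  obtain ⟨n, hn, hw⟩ := exists_norm_gt p.1 hp p.2 (2 * R + 2)
  refine ⟨⟨glue c.1 R (p.1 ^ n), glue_mem c.1 c.2 R _ hw⟩, ?_, n, hn, ?_⟩
  · apply hIV
    intro v hv
    have h1 : v.norm ≤ R + 1 := by
      have : v.norm ≤ I.sup fun v => v.norm := Finset.le_sup (f := fun v : L => v.norm) hv
      omega
    show glue c.1 R (p.1 ^ n) v ∈ u v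
    rw [(glue_eq c.1 R _ hw v h1).1]
    exact (hI v hv).2
  · intro v hv
    have h1 : v.norm ≤ R + 1 := by omega
    obtain ⟨h2, h3⟩ := glue_eq c.1 R _ hw v h1
    show glue c.1 R (p.1 ^ n) (v * p.1 ^ n) = glue c.1 R (p.1 ^ n) v
    rw [h2, h3]

lemma exists_recurrent : ∃ c ∈ XS, ∀ (w : L) (N : ℕ), ∃ n ≥ N, ∀ v : L, v.norm ≤ N →
    c (v * w ^ n) = c v := by
  have : CompactSpace XS := isCompact_iff_compactSpace.mp isClosed_XS.isCompact
  have : Nonempty XS := ⟨⟨pt, pt_mem⟩⟩
  have h := dense_iInter_of_isOpen isOpen_US dense_US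
  obtain ⟨c, hc⟩ := h.nonempty
  refine ⟨c.1, c.2, fun w N => ?_⟩
  have := Set.mem_iInter.mp hc (w, N)
  exact this


/-! ### the action and the cocycle -/

section Action

variable {S : Type*}

/-- shift automorphism of `L` by `j`. -/
def T (j : ZMod 3) : L →* L := FreeGroup.map (· + j)

lemma T_of (j i : ZMod 3) : T j (of i) = of (i + j) := by simp [T]

lemma T_T (j k : ZMod 3) (v : L) : T j (T k v) = T (k + j) v := by
  unfold T
  rw [FreeGroup.map.comp]
  congr 1
  ext i
  simp

lemma T_zero (v : L) : T 0 v = v := by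
  unfold T
  simp

lemma T_letter (j : ZMod 3) (s : Letter) : T j (mk [s]) = mk [(s.1 + j, s.2)] := by
  unfold T
  simp

/-- `v ↦ T 1 v` as a permutation. -/
def tau : Equiv.Perm L where
  toFun := T 1
  invFun := T (-1)
  left_inv v := by rw [T_T]; simp [T_zero]
  right_inv v := by rw [T_T]; simp [T_zero]

lemma tau_apply (v : L) : tau v = T 1 v := rfl

open Classical in
/-- action of generators. -/
noncomputable def gen (a b : S) (s : S) : Equiv.Perm L :=
  if s = a then tau else if s = b then Equiv.mulRight (of 0) else 1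

open Classical in
/-- lamp of the generators. -/
noncomputable def lam (a : S) (s : S) : L → Multiplicative ℤ :=
  if s = a then fun v => if v = 1 then Multiplicative.ofAdd 1 else 1 else 1

/-- the homomorphism to the wreath product. -/
noncomputable def Phi (a b : S) :
    FreeGroup S →* (L → Multiplicative ℤ) ⋊[mulAutArrow] (Equiv.Perm L) :=
  FreeGroup.lift fun s => ⟨lam a s, gen a b s⟩

lemma Phi_of (a b s : S) : Phi a b (of s) = ⟨lam a s, gen a b s⟩ := by
  simp [Phi]

/-- action on vertices. -/
noncomputable def sg (a b : S) : FreeGroup S →* Equiv.Perm L :=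
  SemidirectProduct.rightHom.comp (Phi a b)

/-- cocycle. -/
noncomputable def co (a b : S) (g : FreeGroup S) : L → Multiplicative ℤ := (Phi a b g).left

lemma sg_eq (a b : S) (g : FreeGroup S) : sg a b g = (Phi a b g).right := rfl

lemma co_one (a b : S) (v : L) : co a b 1 v = 1 := by
  unfold co; simp

lemma co_mul (a b : S) (g h : FreeGroup S) (v : L) :
    co a b (g * h) v = co a b g v * co a b h ((sg a b g)⁻¹ v) := by
  unfold co
  rw [map_mul, SemidirectProduct.mul_left]
  rfl

lemma sg_of_a (a b : S) : sg a b (of a) = tau := by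
  rw [sg_eq, Phi_of]; simp [gen]

lemma sg_of_b (a b : S) (hab : a ≠ b) : sg a b (of b) = Equiv.mulRight (of 0) := by
  rw [sg_eq, Phi_of]; simp [gen, hab.symm]

lemma co_of_a (a b : S) (v : L) : co a b (of a) v = if v = 1 then Multiplicative.ofAdd 1 else 1 := by
  unfold co; rw [Phi_of]; simp [lam]

lemma co_inv_mul (a b : S) (g : FreeGroup S) (v : L) :
    co a b g⁻¹ v * co a b g (sg a b g v) = 1 := by
  have h := co_mul a b g⁻¹ g v
  rw [inv_mul_cancel, co_one, map_inv, inv_inv] at h
  exact h.symm

lemma co_conj (a b : S) (g k : FreeGroup S) (hk : sg a b k = 1) (v : L) :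
    co a b (g⁻¹ * k * g) v = co a b k (sg a b g v) := by
  rw [mul_assoc, co_mul, co_mul, hk, map_inv, inv_inv]
  have h := co_inv_mul a b g v
  simp only [inv_one, Equiv.Perm.coe_one, id_eq]
  calc _ = (co a b g⁻¹ v * co a b g (sg a b g v)) * co a b k (sg a b g v) := by
        rw [mul_assoc, mul_comm (co a b k _)]
    _ = _ := by rw [h, one_mul]

/-- The subgroup attached to a colouring. -/
noncomputable def De (a b : S) (c : L → Bool) : Subgroup (FreeGroup S) where
  carrier := {g | sg a b g = 1 ∧ ∀ v, c v = true → co a b g v = 1}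
  mul_mem' := by
    rintro g h ⟨hg1, hg2⟩ ⟨hh1, hh2⟩
    refine ⟨by rw [map_mul, hg1, hh1, mul_one], fun v hv => ?_⟩
    rw [co_mul, hg1, hg2 v hv]
    simpa using hh2 v hv
  one_mem' := ⟨map_one _, fun v _ => co_one a b v⟩
  inv_mem' := by
    rintro g ⟨hg1, hg2⟩
    refine ⟨by rw [map_inv, hg1, inv_one], fun v hv => ?_⟩
    have h := co_inv_mul a b g v
    rw [hg1] at h
    simp only [Equiv.Perm.coe_one, id_eq] at h
    rw [hg2 v hv, mul_one] at h
    exact h

lemma mem_De (a b : S) (c : L → Bool) (g : FreeGroup S) :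
    g ∈ De a b c ↔ sg a b g = 1 ∧ ∀ v, c v = true → co a b g v = 1 := Iff.rfl

lemma mem_De_conj (a b : S) (c : L → Bool) (g k : FreeGroup S) :
    g⁻¹ * k * g ∈ De a b c ↔ k ∈ De a b (fun v => c ((sg a b g)⁻¹ v)) := by
  rw [mem_De, mem_De]
  have h1 : sg a b (g⁻¹ * k * g) = 1 ↔ sg a b k = 1 := by
    rw [map_mul, map_mul, map_inv]
    constructor
    · intro h
      have : sg a b k = sg a b g * ((sg a b g)⁻¹ * sg a b k * sg a b g) * (sg a b g)⁻¹ := by group
      rw [this, h]; group
    · intro h; rw [h]; group
  rw [h1]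
  apply and_congr_right
  intro hk
  constructor
  · intro h v hv
    have := h _ hv
    rw [co_conj a b g k hk] at this
    simpa using this
  · intro h v hv
    rw [co_conj a b g k hk]
    apply h
    simpa using hv

lemma finite_supp (a b : S) (g : FreeGroup S) : {v | co a b g v ≠ 1}.Finite := by
  have hmul : ∀ g h : FreeGroup S, {v | co a b g v ≠ 1}.Finite → {v | co a b h v ≠ 1}.Finite →
      {v | co a b (g * h) v ≠ 1}.Finite := by
    intro g h hg hh
    apply (hg.union (hh.image (sg a b g))).subset
    intro v hv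
    by_contra hcon
    simp only [Set.mem_union, Set.mem_ofPred_eq, Set.mem_image, not_or, not_not, not_exists,
      not_and] at hcon
    apply hv
    rw [co_mul, hcon.1, one_mul]
    by_contra h3
    exact hcon.2 _ h3 (by simp)
  have hinv : ∀ g : FreeGroup S, {v | co a b g v ≠ 1}.Finite → {v | co a b g⁻¹ v ≠ 1}.Finite := by
    intro g hg
    apply (hg.image (sg a b g).symm).subset
    intro v hv
    refine ⟨sg a b g v, ?_, by simp⟩
    intro h
    apply hv
    have := co_inv_mul a b g v
    rw [h, mul_one] at this
    exact this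
  have hof : ∀ s : S, {v | co a b (of s) v ≠ 1}.Finite := by
    intro s
    apply (Set.finite_singleton (1 : L)).subset
    intro v hv
    by_contra hcon
    apply hv
    unfold co
    rw [Phi_of]
    simp only [lam]
    split_ifs
    · simp only [Set.mem_singleton_iff] at hcon
      simp [hcon]
    · rfl
  refine FreeGroup.induction_on g ?_ hof (fun s hs => hinv _ hs) hmul
  simp [co_one]

lemma sg_form (a b : S) (g : FreeGroup S) :
    ∃ (j : ZMod 3) (w : L), ∀ v, sg a b g v = T j v * w := by
  have hmul : ∀ g h : FreeGroup S, (∃ (j : ZMod 3) (w : L), ∀ v, sg a b g v = T j v * w) →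
      (∃ (j : ZMod 3) (w : L), ∀ v, sg a b h v = T j v * w) →
      (∃ (j : ZMod 3) (w : L), ∀ v, sg a b (g * h) v = T j v * w) := by
    rintro g h ⟨j, w, hg⟩ ⟨k, u, hh⟩
    refine ⟨k + j, T j u * w, fun v => ?_⟩
    rw [map_mul, Equiv.Perm.mul_apply, hh, hg, map_mul, T_T, mul_assoc]
  have hinv : ∀ g : FreeGroup S, (∃ (j : ZMod 3) (w : L), ∀ v, sg a b g v = T j v * w) →
      (∃ (j : ZMod 3) (w : L), ∀ v, sg a b g⁻¹ v = T j v * w) := by
    rintro g ⟨j, w, hg⟩
    refine ⟨-j, T (-j) w⁻¹, fun v => ?_⟩
    rw [map_inv, Equiv.Perm.inv_eq_iff_eq, hg, map_mul, T_T, T_T]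
    simp [T_zero]
  have hof : ∀ s : S, (∃ (j : ZMod 3) (w : L), ∀ v, sg a b (of s) v = T j v * w) := by
    intro s
    rw [sg_eq, Phi_of]
    simp only [gen]
    split_ifs
    · exact ⟨1, 1, fun v => by rw [tau_apply, mul_one]⟩
    · exact ⟨0, of 0, fun v => by simp [T_zero]⟩
    · exact ⟨0, 1, fun v => by simp [T_zero]⟩
  refine FreeGroup.induction_on g ?_ hof (fun s hs => hinv _ hs) hmul
  exact ⟨0, 1, fun v => by simp [T_zero]⟩

lemma sg_cube (a b : S) (g : FreeGroup S) :
    ∃ w : L, ∀ (n : ℕ) (v : L), (sg a b (g ^ (3 * n)))⁻¹ v = v * w ^ n := by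
  obtain ⟨j, w, h⟩ := sg_form a b g
  obtain ⟨w', hw'⟩ : ∃ w' : L, ∀ v, sg a b (g ^ 3) v = v * w' := by
    refine ⟨T (j + j) w * T j w * w, fun v => ?_⟩
    rw [pow_succ, pow_succ, pow_one, map_mul, map_mul, Equiv.Perm.mul_apply, Equiv.Perm.mul_apply,
      h, h, h]
    simp only [map_mul, T_T]
    have h3 : ∀ j : ZMod 3, j + j + j = 0 := by decide
    have := h3 j
    rw [this, T_zero]
    group
  refine ⟨w'⁻¹, fun n v => ?_⟩
  rw [Equiv.Perm.inv_eq_iff_eq, pow_mul]
  induction n generalizing v with
  | zero => simp
  | succ n ih =>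
    rw [pow_succ (g ^ 3), map_mul (sg a b), Equiv.Perm.mul_apply, hw', pow_succ w'⁻¹, ← mul_assoc,
      inv_mul_cancel_right]
    exact ih v

lemma cnt_sg (a b : S) (c : L → Bool) (g : FreeGroup S) (v : L) :
    cnt (fun u => c (sg a b g u)) v = cnt c (sg a b g v) := by
  obtain ⟨j, w, h⟩ := sg_form a b g
  unfold cnt
  apply Finset.card_bij (fun s _ => (s.1 + j, s.2))
  · intro s hs
    simp only [Finset.mem_filter, Finset.mem_univ, true_and] at hs ⊢
    rw [← hs, h, h, map_mul, T_letter, mul_assoc]
  · rintro ⟨i, x⟩ _ ⟨k, y⟩ _ hst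
    simpa using hst
  · rintro ⟨i, x⟩ hs
    simp only [Finset.mem_filter, Finset.mem_univ, true_and] at hs
    refine ⟨(i - j, x), ?_, by simp⟩
    simp only [Finset.mem_filter, Finset.mem_univ, true_and]
    rw [← hs, h, h, map_mul, T_letter, mul_assoc]
    simp

lemma shift_mem (a b : S) (c : L → Bool) (hc : c ∈ XS) (g : FreeGroup S) :
    (fun u => c ((sg a b g)⁻¹ u)) ∈ XS := by
  intro v
  have := cnt_sg a b c g⁻¹ v
  rw [map_inv] at this
  rw [this]
  exact hc _

lemma exists_transport (a b : S) (hab : a ≠ b) (s : Letter) :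
    ∃ g : FreeGroup S, sg a b g 1 = mk [s] := by
  obtain ⟨i, x⟩ := s
  have hpow : ∀ (n : ℕ) (v : L), (sg a b (of a) ^ n) v = T (n : ZMod 3) v := by
    intro n
    induction n with
    | zero => intro v; simp [T_zero]
    | succ n ih =>
      intro v
      rw [pow_succ, Equiv.Perm.mul_apply, ih, sg_of_a, tau_apply, T_T]
      congr 2
      push_cast
      ring
  cases x with
  | true =>
    refine ⟨of a ^ i.val * of b, ?_⟩
    rw [map_mul, map_pow, Equiv.Perm.mul_apply, hpow, sg_of_b a b hab]
    simp only [ZMod.natCast_val, ZMod.cast_id', id_eq, Equiv.coe_mulRight, one_mul]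
    rw [T_of, zero_add]
    rfl
  | false =>
    refine ⟨of a ^ i.val * (of b)⁻¹, ?_⟩
    rw [map_mul, map_pow, Equiv.Perm.mul_apply, hpow, map_inv, sg_of_b a b hab]
    simp only [ZMod.natCast_val, ZMod.cast_id', id_eq, Equiv.Perm.inv_def, Equiv.mulRight_symm_apply,
      one_mul]
    rw [map_inv, T_of, zero_add]
    rfl

lemma sg_cube_a (a b : S) : sg a b (of a ^ 3) = 1 := by
  ext v
  rw [pow_succ, pow_succ, pow_one, map_mul, map_mul, Equiv.Perm.mul_apply, Equiv.Perm.mul_apply,
    sg_of_a, tau_apply, tau_apply, tau_apply, T_T, T_T]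
  have : (1 : ZMod 3) + (1 + 1) = 0 := by decide
  rw [this, T_zero]
  rfl

lemma tau_inv_eq_one (v : L) : tau⁻¹ v = 1 ↔ v = 1 := by
  rw [Equiv.Perm.inv_eq_iff_eq, tau_apply, map_one]

lemma co_cube_a (a b : S) (v : L) :
    co a b (of a ^ 3) v = if v = 1 then Multiplicative.ofAdd 3 else 1 := by
  rw [pow_succ, pow_succ, pow_one, co_mul, co_mul, map_mul, sg_of_a, co_of_a, co_of_a, co_of_a,
    mul_inv_rev, Equiv.Perm.mul_apply]
  simp only [tau_inv_eq_one]
  split_ifs
  · rfl
  · simp

lemma cube_mem (a b : S) (c : L → Bool) : of a ^ 3 ∈ De a b c ↔ c 1 = false := by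
  rw [mem_De]
  constructor
  · rintro ⟨_, h⟩
    by_contra hcon
    have h1 : c 1 = true := by simpa using hcon
    have h2 := h 1 h1
    rw [co_cube_a, if_pos rfl] at h2
    have : (3 : ℤ) = 0 := Multiplicative.ofAdd.injective h2
    omega
  · intro h
    refine ⟨sg_cube_a a b, fun v hv => ?_⟩
    rw [co_cube_a]
    split_ifs with h1
    · rw [h1, h] at hv
      exact absurd hv (by simp)
    · rfl

lemma conj_cube_mem (a b : S) (c : L → Bool) (g : FreeGroup S) :
    g * of a ^ 3 * g⁻¹ ∈ De a b c ↔ c (sg a b g 1) = false := by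
  have h := mem_De_conj a b c g⁻¹ (of a ^ 3)
  rw [inv_inv] at h
  rw [h, cube_mem, map_inv, inv_inv]

end Action


/-! ### Facts about the space of subgroups -/

section Space

variable {G : Type*} [Group G]

lemma mem_conj (γ : G) (H : Subgroup G) (k : G) : k ∈ conj γ H ↔ γ⁻¹ * k * γ ∈ H := by
  unfold conj
  rw [Subgroup.mem_map]
  constructor
  · rintro ⟨h, hh, rfl⟩
    have : γ⁻¹ * (MulAut.conj γ).toMonoidHom h * γ = h := by
      simp [MulAut.conj_apply, mul_assoc]
    rwa [this]
  · intro h
    exact ⟨_, h, by simp [MulAut.conj_apply, mul_assoc]⟩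

lemma isClopen_mem (k : G) : @IsClopen (Subgroup G) (subTopology G) {H | k ∈ H} := by
  let _ : TopologicalSpace (Subgroup G) := subTopology G
  have h1 : Continuous (indicator : Subgroup G → G → Bool) := continuous_induced_dom
  have h2 : Continuous fun H : Subgroup G => indicator H k := (continuous_apply k).comp h1
  have h3 : {H : Subgroup G | k ∈ H} = (fun H : Subgroup G => indicator H k) ⁻¹' {true} := by
    ext H
    simp [indicator]
  rw [h3]
  exact (isClopen_discrete {true}).preimage h2

end Space

section Main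

variable {S : Type*}

lemma conj_De (a b : S) (c : L → Bool) (g : FreeGroup S) :
    conj g (De a b c) = De a b (fun v => c ((sg a b g)⁻¹ v)) := by
  ext k
  rw [mem_conj, mem_De_conj]

lemma boomerang_De (a b : S) (c : L → Bool)
    (hrec : ∀ (w : L) (N : ℕ), ∃ n ≥ N, ∀ v : L, v.norm ≤ N → c (v * w ^ n) = c v) :
    IsBoomerang (De a b c) := by
  intro γ
  obtain ⟨w, hw⟩ := sg_cube a b γ
  choose n hn hc using hrec w
  refine ⟨fun k => 3 * n k, ?_, ?_⟩
  · apply tendsto_atTop_mono (f := fun k => k) _ tendsto_id
    intro k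
    have := hn k
    omega
  · rw [show @nhds (Subgroup (FreeGroup S)) (subTopology _) (De a b c) =
      Filter.comap indicator (𝓝 (indicator (De a b c))) from
      @nhds_induced _ _ _ indicator (De a b c)]
    rw [tendsto_comap_iff, tendsto_pi_nhds]
    intro g
    apply tendsto_nhds_of_eventually_eq
    obtain ⟨M, hM⟩ : ∃ M : ℕ, ∀ v, co a b g v ≠ 1 → v.norm ≤ M := by
      obtain ⟨M, hM⟩ := ((finite_supp a b g).image (fun v => v.norm)).bddAbove
      exact ⟨M, fun v hv => hM ⟨v, hv, rfl⟩⟩
    filter_upwards [eventually_ge_atTop M] with k hk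
    have key : g ∈ De a b (fun v => c ((sg a b (γ ^ (3 * n k)))⁻¹ v)) ↔ g ∈ De a b c := by
      rw [mem_De, mem_De]
      apply and_congr_right
      intro _
      apply forall_congr'
      intro v
      by_cases h1 : co a b g v = 1
      · simp [h1]
      · have h2 : v.norm ≤ k := (hM v h1).trans hk
        rw [hw, hc k v h2]
    simp only [Function.comp_apply, indicator]
    rw [conj_De]
    exact decide_eq_decide.mpr key

lemma infinite_De (a b : S) (hab : a ≠ b) (c : L → Bool) (hc : c ∈ XS) :
    (De a b c : Set (FreeGroup S)).Infinite := by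
  -- some out-neighbour of the root has colour `false`
  obtain ⟨s, hs1, hs2⟩ : ∃ s : Letter, s.2 = true ∧ c (mk [s] * 1) = !s.2 := by
    by_contra hcon
    push Not at hcon
    have h1 : (Finset.univ.filter fun s : Letter => c (mk [s] * 1) = !s.2) ⊆
        Finset.univ.filter fun s : Letter => s.2 = false := by
      intro s hs
      simp only [Finset.mem_filter, Finset.mem_univ, true_and] at hs ⊢
      by_contra h2
      exact hcon s (by simpa using h2) hs
    have h2 := Finset.card_le_card h1
    have h3 : (Finset.univ.filter fun s : Letter => s.2 = false).card = 3 := by decide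
    have h4 := hc 1
    unfold cnt at h4
    omega
  obtain ⟨g, hg⟩ := exists_transport a b hab s
  rw [mul_one, hs1] at hs2
  have hmem : g * of a ^ 3 * g⁻¹ ∈ De a b c := by
    rw [conj_cube_mem, hg, hs2]
    rfl
  have hne : g * of a ^ 3 * g⁻¹ ≠ 1 := by
    intro h
    have h1 : of a ^ 3 = (1 : FreeGroup S) := by
      have : of a ^ 3 = g⁻¹ * (g * of a ^ 3 * g⁻¹) * g := by group
      rw [this, h]; group
    have h2 := congrArg (fun x => co a b x 1) h1
    simp only [co_cube_a, if_true, co_one] at h2
    have : (3 : ℤ) = 0 := Multiplicative.ofAdd.injective h2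
    omega
  have hinj : Function.Injective (fun n : ℕ => (g * of a ^ 3 * g⁻¹) ^ n) := by
    intro m n hmn
    exact IsMulTorsionFree.pow_right_injective hne hmn
  apply (Set.infinite_range_of_injective hinj).mono
  rintro _ ⟨n, rfl⟩
  exact pow_mem hmem n

lemma no_irs (a b : S) (hab : a ≠ b) (c : L → Bool) (hc : c ∈ XS) :
    ¬ SupportsIRS (orbitClosure (De a b c)) := by
  classical
  rintro ⟨μ, hμ, hsupp⟩
  let _ : TopologicalSpace (Subgroup (FreeGroup S)) := subTopology _
  let _ : MeasurableSpace (Subgroup (FreeGroup S)) := subBorel _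
  have hBorel : BorelSpace (Subgroup (FreeGroup S)) := ⟨rfl⟩
  choose h hh using exists_transport a b hab
  set k : FreeGroup S := of a ^ 3 with hk
  -- the clopen sets
  set B : Letter → Set (Subgroup (FreeGroup S)) :=
    fun s => {H | h s * k * (h s)⁻¹ ∈ H ↔ s.2 = true} with hB
  set A : Set (Subgroup (FreeGroup S)) := {H | k ∈ H} with hA
  have hAclopen : IsClopen A := isClopen_mem k
  have hAmeas : MeasurableSet A := hAclopen.isOpen.measurableSet
  have hBcases : ∀ s, B s = if s.2 = true then {H | h s * k * (h s)⁻¹ ∈ H}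
      else {H | h s * k * (h s)⁻¹ ∈ H}ᶜ := by
    intro s
    simp only [hB]
    split_ifs with h1
    · ext H; simp [h1]
    · ext H; simp [h1]
  have hBclopen : ∀ s, IsClopen (B s) := by
    intro s
    rw [hBcases]
    split_ifs
    · exact isClopen_mem _
    · exact (isClopen_mem _).compl
  -- the closed set containing the orbit closure
  set C : Set (Subgroup (FreeGroup S)) :=
    {H | 4 ≤ (Finset.univ.filter fun s : Letter => H ∈ B s).card} with hC
  have hCclosed : IsClosed C := by
    have hcont : Continuous fun H : Subgroup (FreeGroup S) =>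
        (Finset.univ.filter fun s : Letter => H ∈ B s).card := by
      simp_rw [Finset.card_filter]
      apply continuous_finsetSum
      intro s _
      have : (fun H : Subgroup (FreeGroup S) => if H ∈ B s then 1 else 0) =
          (B s).indicator (fun _ => (1 : ℕ)) := by
        ext H; simp [Set.indicator]
      rw [this]
      apply continuous_const.indicator
      intro H hH
      rw [(hBclopen s).frontier_eq] at hH
      exact absurd hH (Set.notMem_empty H)
    exact isClosed_le continuous_const hcont
  have hsub : orbitClosure (De a b c) ⊆ C := by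
    apply closure_minimal _ hCclosed
    rintro _ ⟨g, rfl⟩
    rw [conj_De]
    have h1 := shift_mem a b c hc g 1
    unfold cnt at h1
    simp only [hC, Set.mem_ofPred_eq]
    refine h1.trans (le_of_eq ?_)
    congr 1
    apply Finset.filter_congr
    intro s _
    simp only [hB, Set.mem_ofPred_eq]
    rw [conj_cube_mem, hh, mul_one]
    cases s.2 <;> simp
  have hCone : μ C = 1 := by
    apply le_antisymm
    · rw [← hμ.prob]; exact measure_mono (Set.subset_univ _)
    · rw [← hsupp]; exact measure_mono hsub
  -- measures of the sets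
  have hinv : ∀ s, μ {H | h s * k * (h s)⁻¹ ∈ H} = μ A := by
    intro s
    have h1 := hμ.invariant (h s)⁻¹ A hAmeas
    rw [← h1]
    congr 1
    ext H
    simp only [Set.mem_ofPred_eq, hA]
    rw [mem_conj, inv_inv]
  have hAc : μ A + μ Aᶜ = 1 := by
    rw [measure_add_measure_compl hAmeas, hμ.prob]
  have hinv' : ∀ s, μ {H | h s * k * (h s)⁻¹ ∈ H}ᶜ = μ Aᶜ := by
    intro s
    have h1 := hμ.invariant (h s)⁻¹ Aᶜ hAmeas.compl
    rw [← h1]
    congr 1
    ext H
    simp only [Set.mem_compl_iff, Set.mem_ofPred_eq, hA]
    rw [mem_conj, inv_inv]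
  have hsum : ∑ s : Letter, μ (B s) = 3 := by
    have h1 : ∀ s : Letter, μ (B s) = if s.2 = true then μ A else μ Aᶜ := by
      intro s
      rw [hBcases]
      split_ifs
      · exact hinv s
      · exact hinv' s
    simp_rw [h1]
    rw [Fintype.sum_prod_type]
    simp only [Fintype.sum_bool, if_true, Bool.false_eq_true, if_false, hAc]
    simp
  have hint : ∫⁻ H, ∑ s : Letter, (B s).indicator (fun _ => (1 : ENNReal)) H ∂μ = 3 := by
    rw [lintegral_finsetSum]
    · rw [← hsum]
      apply Finset.sum_congr rfl
      intro s _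
      rw [lintegral_indicator (hBclopen s).isOpen.measurableSet]
      simp
    · intro s _
      exact measurable_const.indicator (hBclopen s).isOpen.measurableSet
  have hlow : (4 : ENNReal) ≤ ∫⁻ H, ∑ s : Letter, (B s).indicator (fun _ => (1 : ENNReal)) H ∂μ := by
    calc (4 : ENNReal) = ∫⁻ H, C.indicator (fun _ => (4 : ENNReal)) H ∂μ := by
          rw [lintegral_indicator hCclosed.measurableSet]
          simp [hCone]
      _ ≤ _ := by
          apply lintegral_mono
          intro H
          simp only [Set.indicator]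
          split_ifs with h1
          · simp only [hC, Set.mem_ofPred_eq] at h1
            rw [Finset.card_filter] at h1
            exact_mod_cast h1
          · exact zero_le
  rw [hint] at hlow
  have : ¬ (4 : ENNReal) ≤ 3 := by
    rw [not_le]
    exact_mod_cast (by norm_num : (3 : ℕ) < 4)
  exact this hlow

end Main

/-- **Main theorem.** Let `S` be a countable set with at least two elements, so that `FreeGroup S` is
the free group of rank `r = |S|`, `2 ≤ r ≤ ℵ₀` (all these ranks occur).  There is an infinite
boomerang subgroup `Δ` of `FreeGroup S` such that the closure of the conjugation orbit of `Δ` supports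
no invariant random subgroup. -/
theorem result (S : Type*) [Countable S] [Nontrivial S] :
    ∃ Δ : Subgroup (FreeGroup S), (Δ : Set (FreeGroup S)).Infinite ∧ IsBoomerang Δ ∧
      ¬ SupportsIRS (orbitClosure Δ) := by
  obtain ⟨a, b, hab⟩ := exists_pair_ne S
  obtain ⟨c, hc, hrec⟩ := exists_recurrent
  exact ⟨De a b c, infinite_De a b hab c hc, boomerang_De a b c hrec, no_irs a b hab c hc⟩

end Pool.Agent.Results.MP_d9b86d_al.NoIRS
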